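import Mathlib

namespace Pool.Agent.Results.MP_c34da8_nt.TwoClasses

open Filter Finset

/-- `om P n` is the number of elements of the finite set `P` that divide `n`. -/
def om (P : Finset ℕ) (n : ℕ) : ℕ := (P.filter (fun p => p ∣ n)).card

/-- The sum of the reciprocals of the elements of `P`. -/
noncomputable def recSum (P : Finset ℕ) : ℝ := ∑ p ∈ P, (1 : ℝ) / p

lemma om_eq_sum (P : Finset ℕ) (n : ℕ) :
    (om P n : ℝ) = ∑ p ∈ P, (if p ∣ n then (1 : ℝ) else 0) := by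
  unfold om
  rw [Finset.card_filter]
  push_cast
  rfl

lemma sum_ind_dvd (M p : ℕ) :
    ∑ n ∈ Ioc 0 M, (if p ∣ n then (1 : ℝ) else 0) = ((M / p : ℕ) : ℝ) := by
  rw [Finset.sum_ite, Finset.sum_const_zero, add_zero, Finset.sum_const, nsmul_eq_mul, mul_one,
    Nat.Ioc_filter_dvd_card_eq_div]

lemma sum_om_ge (P : Finset ℕ) (hP : ∀ p ∈ P, p.Prime) (M : ℕ) :
    (M : ℝ) * recSum P - P.card ≤ ∑ n ∈ Ioc 0 M, (om P n : ℝ) := by
  have h1 : ∑ n ∈ Ioc 0 M, (om P n : ℝ) = ∑ p ∈ P, ((M / p : ℕ) : ℝ) := by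
    simp_rw [om_eq_sum]
    rw [Finset.sum_comm]
    exact Finset.sum_congr rfl (fun p _ => sum_ind_dvd M p)
  rw [h1]
  unfold recSum
  rw [Finset.mul_sum, Finset.card_eq_sum_ones, Nat.cast_sum, ← Finset.sum_sub_distrib]
  apply Finset.sum_le_sum
  intro p hp
  have hp0 : (0 : ℝ) < p := by exact_mod_cast (hP p hp).pos
  have h2 : (M : ℝ) / p < ((M / p : ℕ) : ℝ) + 1 := by
    rw [div_lt_iff₀ hp0]
    have := Nat.lt_div_mul_add (a := M) (hP p hp).pos
    have h3 : M < (M / p + 1) * p := by linarith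
    exact_mod_cast h3
  have h4 : (M : ℝ) * (1 / p) = (M : ℝ) / p := by ring
  rw [h4]
  push_cast at h2 ⊢
  linarith

lemma sum_om_sq_le (P : Finset ℕ) (hP : ∀ p ∈ P, p.Prime) (M : ℕ) :
    ∑ n ∈ Ioc 0 M, (om P n : ℝ) ^ 2 ≤ (M : ℝ) * (recSum P ^ 2 + recSum P) := by
  have h1 : ∑ n ∈ Ioc 0 M, (om P n : ℝ) ^ 2
      = ∑ p ∈ P, ∑ q ∈ P, ∑ n ∈ Ioc 0 M, (if p ∣ n ∧ q ∣ n then (1 : ℝ) else 0) := by
    have : ∀ n, (om P n : ℝ) ^ 2 = ∑ p ∈ P, ∑ q ∈ P, (if p ∣ n ∧ q ∣ n then (1 : ℝ) else 0) := by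
      intro n
      rw [om_eq_sum, sq, Finset.sum_mul_sum]
      apply Finset.sum_congr rfl
      intro p _
      apply Finset.sum_congr rfl
      intro q _
      by_cases h1 : p ∣ n <;> by_cases h2 : q ∣ n <;> simp [h1, h2]
    simp_rw [this]
    rw [Finset.sum_comm]
    apply Finset.sum_congr rfl
    intro p _
    rw [Finset.sum_comm]
  rw [h1]
  have h2 : ∀ p ∈ P, ∀ q ∈ P, ∑ n ∈ Ioc 0 M, (if p ∣ n ∧ q ∣ n then (1 : ℝ) else 0)
      ≤ (M : ℝ) * ((1 : ℝ) / p * (1 / q)) + (if p = q then (M : ℝ) * (1 / p) else 0) := by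
    intro p hp q hq
    have hp0 : (0 : ℝ) < p := by exact_mod_cast (hP p hp).pos
    have hq0 : (0 : ℝ) < q := by exact_mod_cast (hP q hq).pos
    by_cases hpq : p = q
    · subst hpq
      simp only [and_self, if_true]
      rw [sum_ind_dvd]
      have h3 : ((M / p : ℕ) : ℝ) ≤ (M : ℝ) / p := Nat.cast_div_le
      have h4 : 0 ≤ (M : ℝ) * ((1 : ℝ) / p * (1 / p)) := by positivity
      have h5 : (M : ℝ) * (1 / p) = (M : ℝ) / p := by ring
      linarith
    · rw [if_neg hpq, add_zero]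
      have hco : Nat.Coprime p q := (Nat.coprime_primes (hP p hp) (hP q hq)).2 hpq
      have h3 : ∀ n, (p ∣ n ∧ q ∣ n) ↔ p * q ∣ n := fun n =>
        ⟨fun h => hco.mul_dvd_of_dvd_of_dvd h.1 h.2,
          fun h => ⟨(Dvd.intro _ rfl).trans h, (Dvd.intro_left _ rfl).trans h⟩⟩
      simp_rw [h3]
      rw [sum_ind_dvd]
      have h4 : ((M / (p * q) : ℕ) : ℝ) ≤ (M : ℝ) / ((p * q : ℕ) : ℝ) := Nat.cast_div_le
      have h5 : (M : ℝ) * ((1 : ℝ) / p * (1 / q)) = (M : ℝ) / ((p * q : ℕ) : ℝ) := by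
        push_cast
        field_simp
      linarith
  calc ∑ p ∈ P, ∑ q ∈ P, ∑ n ∈ Ioc 0 M, (if p ∣ n ∧ q ∣ n then (1 : ℝ) else 0)
      ≤ ∑ p ∈ P, ∑ q ∈ P, ((M : ℝ) * ((1 : ℝ) / p * (1 / q))
          + (if p = q then (M : ℝ) * (1 / p) else 0)) :=
        Finset.sum_le_sum (fun p hp => Finset.sum_le_sum (fun q hq => h2 p hp q hq))
    _ = (M : ℝ) * (recSum P ^ 2 + recSum P) := by
        have e1 : ∀ p ∈ P, ∑ q ∈ P, ((M : ℝ) * ((1 : ℝ) / p * (1 / q))
            + (if p = q then (M : ℝ) * (1 / p) else 0))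
            = (M : ℝ) * ((1 / p) * recSum P) + (M : ℝ) * (1 / p) := by
          intro p hp
          rw [Finset.sum_add_distrib, Finset.sum_ite_eq, if_pos hp]
          congr 1
          rw [← Finset.mul_sum, ← Finset.mul_sum]
          rfl
        rw [Finset.sum_congr rfl e1, Finset.sum_add_distrib, ← Finset.mul_sum, ← Finset.mul_sum,
          ← Finset.sum_mul]
        unfold recSum
        ring

lemma recSum_nonneg (P : Finset ℕ) : 0 ≤ recSum P :=
  Finset.sum_nonneg (fun p _ => by positivity)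

/-- Turán's inequality for a fixed finite set of primes. -/
lemma turan (P : Finset ℕ) (hP : ∀ p ∈ P, p.Prime) (M : ℕ) :
    ∑ n ∈ Ioc 0 M, ((om P n : ℝ) - recSum P) ^ 2 ≤ recSum P * (M + 2 * P.card) := by
  have h1 := sum_om_ge P hP M
  have h2 := sum_om_sq_le P hP M
  have h3 : ∑ n ∈ Ioc 0 M, ((om P n : ℝ) - recSum P) ^ 2
      = ∑ n ∈ Ioc 0 M, (om P n : ℝ) ^ 2 - 2 * recSum P * ∑ n ∈ Ioc 0 M, (om P n : ℝ)
        + M * recSum P ^ 2 := by
    rw [Finset.mul_sum, ← Finset.sum_sub_distrib]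
    have : (M : ℝ) * recSum P ^ 2 = ∑ n ∈ Ioc 0 M, recSum P ^ 2 := by
      rw [Finset.sum_const, Nat.card_Ioc, nsmul_eq_mul]
      simp
    rw [this, ← Finset.sum_add_distrib]
    apply Finset.sum_congr rfl
    intro n _
    ring
  rw [h3]
  have h4 := recSum_nonneg P
  nlinarith [mul_le_mul_of_nonneg_left h1 h4]

/-- Chebyshev: few integers have `om P n` far from its mean. -/
lemma turan_count (P : Finset ℕ) (hP : ∀ p ∈ P, p.Prime) (M : ℕ) (hE : 0 < recSum P) :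
    (((Ioc 0 M).filter (fun n => recSum P / 4 ≤ |(om P n : ℝ) - recSum P|)).card : ℝ)
      ≤ 16 * (M + 2 * P.card) / recSum P := by
  have h1 := turan P hP M
  set B := (Ioc 0 M).filter (fun n => recSum P / 4 ≤ |(om P n : ℝ) - recSum P|) with hB
  have h2 : (B.card : ℝ) * (recSum P / 4) ^ 2 ≤ ∑ n ∈ Ioc 0 M, ((om P n : ℝ) - recSum P) ^ 2 := by
    calc (B.card : ℝ) * (recSum P / 4) ^ 2 = ∑ n ∈ B, (recSum P / 4) ^ 2 := by
          rw [Finset.sum_const, nsmul_eq_mul]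
      _ ≤ ∑ n ∈ B, ((om P n : ℝ) - recSum P) ^ 2 := by
          apply Finset.sum_le_sum
          intro n hn
          have h3 := (Finset.mem_filter.1 hn).2
          rw [← sq_abs ((om P n : ℝ) - recSum P)]
          exact pow_le_pow_left₀ (by positivity) h3 2
      _ ≤ ∑ n ∈ Ioc 0 M, ((om P n : ℝ) - recSum P) ^ 2 := by
          apply Finset.sum_le_sum_of_subset_of_nonneg (Finset.filter_subset _ _)
          intro n _ _
          positivity
  rw [le_div_iff₀ hE]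
  have h3 : (B.card : ℝ) * (recSum P / 4) ^ 2 ≤ recSum P * (M + 2 * P.card) := h2.trans h1
  have h4 : (B.card : ℝ) * recSum P * recSum P ≤ (16 * (M + 2 * P.card)) * recSum P := by
    nlinarith
  exact le_of_mul_le_mul_right h4 hE

/-- The set of entries of the `N × N` multiplication table. -/
def table (N : ℕ) : Finset ℕ := (Ioc 0 N ×ˢ Ioc 0 N).image (fun x => x.1 * x.2)

lemma om_mul_ge (P : Finset ℕ) (a b : ℕ) :
    om P a + om P b ≤ om P (a * b) + (P.filter (fun p => p ∣ a ∧ p ∣ b)).card := by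
  unfold om
  rw [← Finset.card_union_add_card_inter]
  apply Nat.add_le_add
  · apply Finset.card_le_card
    intro p hp
    rw [Finset.mem_union, Finset.mem_filter, Finset.mem_filter] at hp
    rw [Finset.mem_filter]
    rcases hp with hp | hp
    · exact ⟨hp.1, hp.2.mul_right b⟩
    · exact ⟨hp.1, hp.2.mul_left a⟩
  · apply Finset.card_le_card
    intro p hp
    rw [Finset.mem_inter, Finset.mem_filter, Finset.mem_filter] at hp
    rw [Finset.mem_filter]
    exact ⟨hp.1.1, hp.1.2, hp.2.2⟩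

lemma sum_inv_sq_le (P : Finset ℕ) (hP : ∀ p ∈ P, p.Prime) :
    ∑ p ∈ P, (1 : ℝ) / p * (1 / p) ≤ 1 := by
  have key : ∀ m : ℕ, ∑ p ∈ Ioc 1 (m + 1), (1 : ℝ) / p * (1 / p) ≤ 1 - 1 / (m + 1) := by
    intro m
    induction m with
    | zero => simp
    | succ k ih =>
      rw [← Finset.insert_Ioc_right_eq_Ioc_add_one (by omega : 1 ≤ k + 1), Finset.sum_insert (by simp)]
      have h1 : (1 : ℝ) / ((k + 1 + 1 : ℕ) : ℝ) * (1 / ((k + 1 + 1 : ℕ) : ℝ))
          ≤ 1 / ((k : ℝ) + 1) - 1 / ((k : ℝ) + 1 + 1) := by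
        have hk : (0 : ℝ) < (k : ℝ) + 1 := by positivity
        have hk2 : (0 : ℝ) < (k : ℝ) + 1 + 1 := by positivity
        push_cast
        rw [div_sub_div _ _ hk.ne' hk2.ne', div_mul_div_comm, div_le_div_iff₀ (by positivity) (by positivity)]
        nlinarith
      push_cast at h1 ih ⊢
      linarith
  have hsub : P ⊆ Ioc 1 (P.sup id + 1) := by
    intro p hp
    rw [Finset.mem_Ioc]
    refine ⟨(hP p hp).one_lt, ?_⟩
    have : p ≤ P.sup id := Finset.le_sup (f := id) hp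
    omega
  calc ∑ p ∈ P, (1 : ℝ) / p * (1 / p) ≤ ∑ p ∈ Ioc 1 (P.sup id + 1), (1 : ℝ) / p * (1 / p) := by
        apply Finset.sum_le_sum_of_subset_of_nonneg hsub
        intro n _ _
        positivity
    _ ≤ 1 - 1 / ((P.sup id : ℕ) + 1) := key _
    _ ≤ 1 := by
        have : (0 : ℝ) ≤ 1 / (((P.sup id : ℕ) : ℝ) + 1) := by positivity
        linarith

/-- The pairs sharing many primes of `P`. -/
lemma overlap_count (P : Finset ℕ) (hP : ∀ p ∈ P, p.Prime) (N : ℕ) (hE : 0 < recSum P) :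
    (((Ioc 0 N ×ˢ Ioc 0 N).filter (fun x : ℕ × ℕ =>
      recSum P / 4 ≤ ((P.filter (fun p => p ∣ x.1 ∧ p ∣ x.2)).card : ℝ))).card : ℝ)
      ≤ 4 * (N : ℝ) ^ 2 / recSum P := by
  set B := (Ioc 0 N ×ˢ Ioc 0 N).filter (fun x : ℕ × ℕ =>
      recSum P / 4 ≤ ((P.filter (fun p => p ∣ x.1 ∧ p ∣ x.2)).card : ℝ)) with hB
  have h1 : (B.card : ℝ) * (recSum P / 4)
      ≤ ∑ x ∈ Ioc 0 N ×ˢ Ioc 0 N, ((P.filter (fun p => p ∣ x.1 ∧ p ∣ x.2)).card : ℝ) := by
    calc (B.card : ℝ) * (recSum P / 4) = ∑ x ∈ B, (recSum P / 4) := by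
          rw [Finset.sum_const, nsmul_eq_mul]
      _ ≤ ∑ x ∈ B, ((P.filter (fun p => p ∣ x.1 ∧ p ∣ x.2)).card : ℝ) :=
          Finset.sum_le_sum (fun x hx => (Finset.mem_filter.1 hx).2)
      _ ≤ _ := by
          apply Finset.sum_le_sum_of_subset_of_nonneg (Finset.filter_subset _ _)
          intro n _ _
          positivity
  have h2 : ∑ x ∈ Ioc 0 N ×ˢ Ioc 0 N, ((P.filter (fun p => p ∣ x.1 ∧ p ∣ x.2)).card : ℝ)
      = ∑ p ∈ P, ((N / p : ℕ) : ℝ) * ((N / p : ℕ) : ℝ) := by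
    have : ∀ x : ℕ × ℕ, ((P.filter (fun p => p ∣ x.1 ∧ p ∣ x.2)).card : ℝ)
        = ∑ p ∈ P, (if p ∣ x.1 then (1 : ℝ) else 0) * (if p ∣ x.2 then (1 : ℝ) else 0) := by
      intro x
      rw [Finset.card_filter]
      push_cast
      apply Finset.sum_congr rfl
      intro p _
      by_cases h1 : p ∣ x.1 <;> by_cases h2 : p ∣ x.2 <;> simp [h1, h2]
    simp_rw [this]
    rw [Finset.sum_comm]
    apply Finset.sum_congr rfl
    intro p _
    rw [Finset.sum_product, ← sum_ind_dvd, Finset.sum_mul_sum]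
  have h3 : ∑ p ∈ P, ((N / p : ℕ) : ℝ) * ((N / p : ℕ) : ℝ) ≤ (N : ℝ) ^ 2 := by
    calc ∑ p ∈ P, ((N / p : ℕ) : ℝ) * ((N / p : ℕ) : ℝ)
        ≤ ∑ p ∈ P, (N : ℝ) ^ 2 * ((1 : ℝ) / p * (1 / p)) := by
          apply Finset.sum_le_sum
          intro p hp
          have hp0 : (0 : ℝ) < p := by exact_mod_cast (hP p hp).pos
          have h3 : ((N / p : ℕ) : ℝ) ≤ (N : ℝ) / p := Nat.cast_div_le
          have h4 : (0 : ℝ) ≤ ((N / p : ℕ) : ℝ) := by positivity
          calc ((N / p : ℕ) : ℝ) * ((N / p : ℕ) : ℝ) ≤ ((N : ℝ) / p) * ((N : ℝ) / p) := by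
                gcongr
            _ = (N : ℝ) ^ 2 * ((1 : ℝ) / p * (1 / p)) := by
                field_simp
      _ = (N : ℝ) ^ 2 * ∑ p ∈ P, ((1 : ℝ) / p * (1 / p)) := by rw [Finset.mul_sum]
      _ ≤ (N : ℝ) ^ 2 * 1 := by
          gcongr
          exact sum_inv_sq_le P hP
      _ = (N : ℝ) ^ 2 := mul_one _
  rw [le_div_iff₀ hE]
  rw [h2] at h1
  linarith

/-- The multiplication table bound for a fixed finite set of primes. -/
lemma table_card_le (P : Finset ℕ) (hP : ∀ p ∈ P, p.Prime) (N : ℕ) (hE : 0 < recSum P) :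
    ((table N).card : ℝ) ≤ (52 * (N : ℝ) ^ 2 + 64 * P.card * N + 32 * P.card) / recSum P := by
  classical
  set E := recSum P with hEdef
  set B1 := (Ioc 0 (N ^ 2)).filter (fun n => E / 4 ≤ |(om P n : ℝ) - E|) with hB1
  set B2 := (Ioc 0 N).filter (fun n => E / 4 ≤ |(om P n : ℝ) - E|) with hB2
  set B3 := (Ioc 0 N ×ˢ Ioc 0 N).filter (fun x : ℕ × ℕ =>
      E / 4 ≤ ((P.filter (fun p => p ∣ x.1 ∧ p ∣ x.2)).card : ℝ)) with hB3
  have hsub : table N ⊆ B1 ∪ ((B2 ×ˢ Ioc 0 N ∪ Ioc 0 N ×ˢ B2 ∪ B3).image (fun x => x.1 * x.2)) := by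
    intro n hn
    unfold table at hn
    rw [Finset.mem_image] at hn
    obtain ⟨⟨a, b⟩, hab, rfl⟩ := hn
    rw [Finset.mem_product, Finset.mem_Ioc, Finset.mem_Ioc] at hab
    obtain ⟨⟨ha0, haN⟩, ⟨hb0, hbN⟩⟩ := hab
    rw [Finset.mem_union]
    by_contra hcon
    push Not at hcon
    obtain ⟨hc1, hc2⟩ := hcon
    have hc3 : (a, b) ∉ B2 ×ˢ Ioc 0 N ∪ Ioc 0 N ×ˢ B2 ∪ B3 := fun h =>
      hc2 (Finset.mem_image.2 ⟨(a, b), h, rfl⟩)
    rw [Finset.mem_union, Finset.mem_union, Finset.mem_product, Finset.mem_product] at hc3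
    push Not at hc3
    obtain ⟨⟨hc4, hc5⟩, hc6⟩ := hc3
    have ha : a ∈ Ioc 0 N := Finset.mem_Ioc.2 ⟨ha0, haN⟩
    have hb : b ∈ Ioc 0 N := Finset.mem_Ioc.2 ⟨hb0, hbN⟩
    have hc4' : a ∉ B2 := fun h => hc4 h hb
    have hc5' : b ∉ B2 := fun h => hc5 ha h
    have hab1 : a * b ∈ Ioc 0 (N ^ 2) := by
      rw [Finset.mem_Ioc]
      refine ⟨Nat.mul_pos ha0 hb0, ?_⟩
      rw [sq]
      exact Nat.mul_le_mul haN hbN
    have e1 : |(om P (a * b) : ℝ) - E| < E / 4 := by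
      by_contra h
      exact hc1 (Finset.mem_filter.2 ⟨hab1, not_lt.1 h⟩)
    have e2 : |(om P a : ℝ) - E| < E / 4 := by
      by_contra h
      exact hc4' (Finset.mem_filter.2 ⟨ha, not_lt.1 h⟩)
    have e3 : |(om P b : ℝ) - E| < E / 4 := by
      by_contra h
      exact hc5' (Finset.mem_filter.2 ⟨hb, not_lt.1 h⟩)
    have e4 : ((P.filter (fun p => p ∣ a ∧ p ∣ b)).card : ℝ) < E / 4 := by
      by_contra h
      exact hc6 (Finset.mem_filter.2 ⟨Finset.mem_product.2 ⟨ha, hb⟩, not_lt.1 h⟩)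
    have e5 : (om P a : ℝ) + om P b ≤ om P (a * b) + ((P.filter (fun p => p ∣ a ∧ p ∣ b)).card : ℝ) := by
      exact_mod_cast om_mul_ge P a b
    rw [abs_lt] at e1 e2 e3
    linarith [e1.1, e1.2, e2.1, e2.2, e3.1, e3.2]
  have hc : ((table N).card : ℝ) ≤ (B1.card : ℝ) + ((B2.card : ℝ) * N + N * B2.card + B3.card) := by
    have h1 : (table N).card ≤ B1.card + ((B2.card * N + N * B2.card) + B3.card) := by
      calc (table N).card ≤ _ := Finset.card_le_card hsub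
        _ ≤ B1.card + ((B2 ×ˢ Ioc 0 N ∪ Ioc 0 N ×ˢ B2 ∪ B3).image (fun x => x.1 * x.2)).card :=
            Finset.card_union_le _ _
        _ ≤ B1.card + (B2 ×ˢ Ioc 0 N ∪ Ioc 0 N ×ˢ B2 ∪ B3).card := by
            gcongr
            exact Finset.card_image_le
        _ ≤ B1.card + ((B2 ×ˢ Ioc 0 N ∪ Ioc 0 N ×ˢ B2).card + B3.card) := by
            gcongr
            exact Finset.card_union_le _ _
        _ ≤ B1.card + (((B2 ×ˢ Ioc 0 N).card + (Ioc 0 N ×ˢ B2).card) + B3.card) := by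
            gcongr
            exact Finset.card_union_le _ _
        _ = B1.card + ((B2.card * N + N * B2.card) + B3.card) := by
            rw [Finset.card_product, Finset.card_product, Nat.card_Ioc, Nat.sub_zero]
    exact_mod_cast h1
  have h1 := turan_count P hP (N ^ 2) hE
  have h2 := turan_count P hP N hE
  have h3 := overlap_count P hP N hE
  rw [← hEdef] at h1 h2 h3
  rw [← hB1] at h1
  rw [← hB2] at h2
  rw [← hB3] at h3
  have hN : (0 : ℝ) ≤ N := by positivity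
  calc ((table N).card : ℝ) ≤ (B1.card : ℝ) + ((B2.card : ℝ) * N + N * B2.card + B3.card) := hc
    _ ≤ 16 * (((N ^ 2 : ℕ) : ℝ) + 2 * P.card) / E + ((16 * ((N : ℝ) + 2 * P.card) / E) * N
          + N * (16 * ((N : ℝ) + 2 * P.card) / E) + 4 * (N : ℝ) ^ 2 / E) := by
        gcongr
    _ = (52 * (N : ℝ) ^ 2 + 64 * P.card * N + 32 * P.card) / E := by
        push_cast
        field_simp
        ring

lemma exists_primes (C : ℝ) : ∃ P : Finset ℕ, (∀ p ∈ P, p.Prime) ∧ C < recSum P := by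
  by_contra hcon
  push Not at hcon
  apply Nat.Primes.not_summable_one_div
  apply summable_of_sum_le (c := C)
  · intro p
    positivity
  · intro u
    have h1 := hcon (u.map ⟨fun p : Nat.Primes => (p : ℕ), Subtype.val_injective⟩) (by
      intro p hp
      rw [Finset.mem_map] at hp
      obtain ⟨q, _, rfl⟩ := hp
      exact q.2)
    unfold recSum at h1
    rw [Finset.sum_map] at h1
    exact h1

/-- Erdős' multiplication table theorem. -/
lemma table_small (ε : ℝ) (hε : 0 < ε) :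
    ∃ N₀ : ℕ, ∀ N ≥ N₀, ((table N).card : ℝ) ≤ ε * (N : ℝ) ^ 2 := by
  obtain ⟨P, hP, hE⟩ := exists_primes (max 1 (148 / ε))
  have hE1 : (1 : ℝ) < recSum P := lt_of_le_of_lt (le_max_left _ _) hE
  have hE2 : 148 / ε < recSum P := lt_of_le_of_lt (le_max_right _ _) hE
  have hE0 : 0 < recSum P := by linarith
  refine ⟨P.card + 1, fun N hN => ?_⟩
  refine (table_card_le P hP N hE0).trans ?_
  rw [div_le_iff₀ hE0]
  have h1 : ((P.card : ℕ) : ℝ) ≤ N := by
    have : P.card ≤ N := by omega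
    exact_mod_cast this
  have h2 : (1 : ℝ) ≤ N := by
    have : 1 ≤ N := by omega
    exact_mod_cast this
  have h3 : 148 < ε * recSum P := by
    rw [div_lt_iff₀ hε] at hE2
    linarith
  have h4 : (0 : ℝ) ≤ (P.card : ℝ) := by positivity
  have h5 : (P.card : ℝ) * N ≤ (N : ℝ) ^ 2 := by nlinarith
  have h6 : (P.card : ℝ) ≤ (N : ℝ) ^ 2 := by nlinarith
  nlinarith [sq_nonneg (N : ℝ)]

/-- The set `D_f(P)` of the problem for the partition `P = {A₁, A₂}`: the positive integers `n`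
that can be written `n = a * a'` with `a`, `a'` in a common class and `min a a' > f n`. -/
def largeProducts (f : ℕ → ℝ) (A₁ A₂ : Set ℕ) : Set ℕ :=
  {n | 1 ≤ n ∧ ∃ a a' : ℕ, n = a * a' ∧ ((a ∈ A₁ ∧ a' ∈ A₁) ∨ (a ∈ A₂ ∧ a' ∈ A₂)) ∧
    f n < ((min a a' : ℕ) : ℝ)}

/-- One step of the choice of the fast growing sequence. -/
lemma step (f : ℕ → ℝ) (hf : Tendsto f atTop atTop) (i K : ℕ) :
    ∃ N : ℕ, K < N ∧ 2 ≤ N ∧ (∀ x : ℕ, N ^ 2 < (i + 1) * x → (K : ℝ) ≤ f x) ∧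
      ((table N).card : ℝ) ≤ 1 / ((i : ℝ) + 1) * (N : ℝ) ^ 2 := by
  obtain ⟨X, hX⟩ := (tendsto_atTop_atTop.1 hf) (K : ℝ)
  obtain ⟨N₀, hN₀⟩ := table_small (1 / ((i : ℝ) + 1)) (by positivity)
  refine ⟨N₀ + K + 2 + (i + 1) * X, by omega, by omega, ?_, hN₀ _ (by omega)⟩
  intro x hx
  apply hX
  set N := N₀ + K + 2 + (i + 1) * X with hN
  have h1 : (i + 1) * X ≤ N := by omega
  have h2 : N ≤ N ^ 2 := by
    rw [sq]
    exact Nat.le_mul_of_pos_left N (by omega)
  have h3 : (i + 1) * X < (i + 1) * x := by omega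
  exact (Nat.lt_of_mul_lt_mul_left h3).le

theorem result : ∀ f : ℕ → ℝ, Tendsto f atTop atTop →
    ∃ A₁ A₂ : Set ℕ, A₁.Nonempty ∧ A₂.Nonempty ∧ Disjoint A₁ A₂ ∧ A₁ ∪ A₂ = {n : ℕ | 1 ≤ n} ∧
      liminf (fun M : ℕ => ((largeProducts f A₁ A₂ ∩ Set.Icc 1 M).ncard : ℝ) / (M : ℝ)) atTop = 0 := by
  intro f hf
  choose g hg1 hg2 hg3 hg4 using step f hf
  -- the sequence
  let s : ℕ → ℕ := fun i => Nat.rec (g 0 1) (fun j prev => g (j + 1) (prev ^ 2)) i
  have hs0 : s 0 = g 0 1 := rfl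
  have hs1 : ∀ j, s (j + 1) = g (j + 1) ((s j) ^ 2) := fun j => rfl
  have hs2 : ∀ j, 2 ≤ s j := by
    intro j
    cases j with
    | zero => exact hg2 0 1
    | succ j => rw [hs1]; exact hg2 _ _
  have hs3 : ∀ j, (s j) ^ 2 < s (j + 1) := fun j => by rw [hs1]; exact hg1 _ _
  have hs4 : StrictMono s := by
    apply strictMono_nat_of_lt_succ
    intro j
    refine lt_of_le_of_lt ?_ (hs3 j)
    rw [sq]
    exact Nat.le_mul_of_pos_left _ (by have := hs2 j; omega)
  let A₂ : Set ℕ := {n | ∃ j, s j ≤ n ∧ n ≤ (s j) ^ 2}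
  let A₁ : Set ℕ := {n | 1 ≤ n ∧ n ∉ A₂}
  have hA₂pos : ∀ n ∈ A₂, 1 ≤ n := by
    rintro n ⟨j, hj1, _⟩
    have := hs2 j
    omega
  have hdisj : Disjoint A₁ A₂ := by
    rw [Set.disjoint_left]
    intro n hn
    exact hn.2
  have hunion : A₁ ∪ A₂ = {n : ℕ | 1 ≤ n} := by
    ext n
    constructor
    · rintro (h | h)
      · exact h.1
      · exact hA₂pos n h
    · intro h
      rcases Classical.em (n ∈ A₂) with h2 | h2
      · exact Or.inr h2
      · exact Or.inl ⟨h, h2⟩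
  have hne1 : A₁.Nonempty := by
    refine ⟨1, le_refl 1, ?_⟩
    rintro ⟨j, hj1, _⟩
    have := hs2 j
    omega
  have hne2 : A₂.Nonempty := ⟨s 0, 0, le_refl _, by
    rw [sq]
    exact Nat.le_mul_of_pos_left _ (by have := hs2 0; omega)⟩
  refine ⟨A₁, A₂, hne1, hne2, hdisj, hunion, ?_⟩
  set D := largeProducts f A₁ A₂ with hD
  set u : ℕ → ℝ := fun M : ℕ => ((D ∩ Set.Icc 1 M).ncard : ℝ) / (M : ℝ) with hu
  have hu0 : ∀ M, 0 ≤ u M := fun M => by
    simp only [hu]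
    positivity
  have hfin : ∀ M : ℕ, (D ∩ Set.Icc 1 M).Finite := fun M => (Set.finite_Icc 1 M).inter_of_right D
  have hu1 : ∀ M, u M ≤ 1 := by
    intro M
    simp only [hu]
    apply div_le_one_of_le₀ _ (by positivity)
    have h1 : (D ∩ Set.Icc 1 M).ncard ≤ (Set.Icc 1 M).ncard :=
      Set.ncard_le_ncard Set.inter_subset_right (Set.finite_Icc 1 M)
    have h2 : (Set.Icc 1 M : Set ℕ).ncard = M := by
      rw [← Finset.coe_Icc, Set.ncard_coe_finset, Nat.card_Icc]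
      omega
    rw [h2] at h1
    exact_mod_cast h1
  -- the key inclusion
  have key : ∀ j : ℕ, D ∩ Set.Icc 1 ((s (j + 1)) ^ 2) ⊆
      ((Finset.Icc 1 ((s (j + 1)) ^ 2 / (j + 2)) ∪ table (s (j + 1)) : Finset ℕ) : Set ℕ) := by
    intro j n hn
    obtain ⟨⟨hn1, a, a', hnaa, hcls, hmin⟩, hnM⟩ := hn
    rw [Set.mem_Icc] at hnM
    rw [Finset.coe_union, Set.mem_union, Finset.mem_coe, Finset.mem_coe]
    by_cases hsmall : (j + 2) * n ≤ (s (j + 1)) ^ 2
    · left
      rw [Finset.mem_Icc]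
      refine ⟨hn1, ?_⟩
      rw [Nat.le_div_iff_mul_le (by omega)]
      linarith
    · right
      push Not at hsmall
      have hfn : (((s j) ^ 2 : ℕ) : ℝ) ≤ f n := by
        have h := hg3 (j + 1) ((s j) ^ 2) n
        rw [← hs1] at h
        apply h
        have : j + 1 + 1 = j + 2 := by omega
        rw [this]
        exact hsmall
      have hminK : (s j) ^ 2 < min a a' := by
        have : (((s j) ^ 2 : ℕ) : ℝ) < ((min a a' : ℕ) : ℝ) := lt_of_le_of_lt hfn hmin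
        exact_mod_cast this
      rw [lt_min_iff] at hminK
      obtain ⟨hKa, hKa'⟩ := hminK
      -- elements of `A₂` above `(s j)^2` are at least `s (j+1)`
      have hbig : ∀ b : ℕ, (s j) ^ 2 < b → b ∈ A₂ → s (j + 1) ≤ b := by
        rintro b hb ⟨i, hi1, hi2⟩
        by_contra hlt
        push Not at hlt
        have h1 : s i < s (j + 1) := lt_of_le_of_lt hi1 hlt
        have h2 : i < j + 1 := hs4.lt_iff_lt.1 h1
        have h3 : s i ≤ s j := hs4.monotone (by omega)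
        have h4 : (s i) ^ 2 ≤ (s j) ^ 2 := Nat.pow_le_pow_left h3 2
        omega
      -- elements between `s (j+1)` and its square are in `A₂`
      have hmemA₂ : ∀ b : ℕ, s (j + 1) ≤ b → b ≤ (s (j + 1)) ^ 2 → b ∈ A₂ :=
        fun b hb1 hb2 => ⟨j + 1, hb1, hb2⟩
      have hn0 : 0 < n := hn1
      have ha0 : 0 < a := by
        rcases Nat.eq_zero_or_pos a with h | h
        · rw [h, zero_mul] at hnaa; omega
        · exact h
      have ha'0 : 0 < a' := by
        rcases Nat.eq_zero_or_pos a' with h | h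
        · rw [h, mul_zero] at hnaa; omega
        · exact h
      have han : a ≤ (s (j + 1)) ^ 2 := by
        have : a ≤ n := by rw [hnaa]; exact Nat.le_mul_of_pos_right _ ha'0
        omega
      have ha'n : a' ≤ (s (j + 1)) ^ 2 := by
        have : a' ≤ n := by rw [hnaa]; exact Nat.le_mul_of_pos_left _ ha0
        omega
      -- in both cases the two factors are at most `s (j+1)`
      have hle : a ≤ s (j + 1) ∧ a' ≤ s (j + 1) := by
        rcases hcls with ⟨h1, h2⟩ | ⟨h1, h2⟩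
        · constructor
          · by_contra hgt
            push Not at hgt
            exact h1.2 (hmemA₂ a hgt.le han)
          · by_contra hgt
            push Not at hgt
            exact h2.2 (hmemA₂ a' hgt.le ha'n)
        · have h3 := hbig a hKa h1
          have h4 := hbig a' hKa' h2
          have hspos : 0 < s (j + 1) := by have := hs2 (j + 1); omega
          constructor
          · by_contra hgt
            push Not at hgt
            have h5 : (s (j + 1)) ^ 2 < a * a' := by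
              rw [sq]
              calc s (j + 1) * s (j + 1) < a * s (j + 1) := Nat.mul_lt_mul_of_pos_right hgt hspos
                _ ≤ a * a' := Nat.mul_le_mul_left a h4
            rw [← hnaa] at h5
            omega
          · by_contra hgt
            push Not at hgt
            have h5 : (s (j + 1)) ^ 2 < a * a' := by
              rw [sq]
              calc s (j + 1) * s (j + 1) ≤ a * s (j + 1) := Nat.mul_le_mul_right _ h3
                _ < a * a' := Nat.mul_lt_mul_of_pos_left hgt ha0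
            rw [← hnaa] at h5
            omega
      unfold table
      rw [Finset.mem_image]
      exact ⟨(a, a'), Finset.mem_product.2
        ⟨Finset.mem_Ioc.2 ⟨ha0, hle.1⟩, Finset.mem_Ioc.2 ⟨ha'0, hle.2⟩⟩, hnaa.symm⟩
  have hbound : ∀ j : ℕ, u ((s (j + 1)) ^ 2) ≤ 2 / ((j : ℝ) + 2) := by
    intro j
    have h1 : (D ∩ Set.Icc 1 ((s (j + 1)) ^ 2)).ncard ≤
        (s (j + 1)) ^ 2 / (j + 2) + (table (s (j + 1))).card := by
      calc (D ∩ Set.Icc 1 ((s (j + 1)) ^ 2)).ncard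
          ≤ (((Finset.Icc 1 ((s (j + 1)) ^ 2 / (j + 2)) ∪ table (s (j + 1)) : Finset ℕ) :
              Set ℕ)).ncard := Set.ncard_le_ncard (key j) (Finset.finite_toSet _)
        _ = (Finset.Icc 1 ((s (j + 1)) ^ 2 / (j + 2)) ∪ table (s (j + 1))).card :=
            Set.ncard_coe_finset _
        _ ≤ (Finset.Icc 1 ((s (j + 1)) ^ 2 / (j + 2))).card + (table (s (j + 1))).card :=
            Finset.card_union_le _ _
        _ = (s (j + 1)) ^ 2 / (j + 2) + (table (s (j + 1))).card := by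
            rw [Nat.card_Icc]; simp
    have h2 : ((table (s (j + 1))).card : ℝ) ≤ 1 / (((j + 1 : ℕ) : ℝ) + 1) * (s (j + 1) : ℝ) ^ 2 := by
      have := hg4 (j + 1) ((s j) ^ 2)
      rw [← hs1] at this
      exact this
    have hM : (0 : ℝ) < (((s (j + 1)) ^ 2 : ℕ) : ℝ) := by
      have := hs2 (j + 1)
      have h3 : 0 < (s (j + 1)) ^ 2 := by positivity
      exact_mod_cast h3
    have h3 : (((s (j + 1)) ^ 2 / (j + 2) : ℕ) : ℝ) ≤ (((s (j + 1)) ^ 2 : ℕ) : ℝ) / ((j + 2 : ℕ) : ℝ) :=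
      Nat.cast_div_le
    have h4 : ((D ∩ Set.Icc 1 ((s (j + 1)) ^ 2)).ncard : ℝ) ≤
        (((s (j + 1)) ^ 2 / (j + 2) : ℕ) : ℝ) + ((table (s (j + 1))).card : ℝ) := by
      exact_mod_cast h1
    simp only [hu]
    rw [div_le_iff₀ hM]
    have h5 : (0 : ℝ) < (j : ℝ) + 2 := by positivity
    have h6 : (((s (j + 1)) ^ 2 : ℕ) : ℝ) / ((j + 2 : ℕ) : ℝ)
        + 1 / (((j + 1 : ℕ) : ℝ) + 1) * (s (j + 1) : ℝ) ^ 2
        = 2 / ((j : ℝ) + 2) * (((s (j + 1)) ^ 2 : ℕ) : ℝ) := by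
      push_cast
      have h7 : (j : ℝ) + 1 + 1 = (j : ℝ) + 2 := by ring
      rw [h7]
      field_simp
      ring
    linarith
  -- conclusion
  have hbddB : IsBoundedUnder (· ≥ ·) atTop u := isBoundedUnder_of ⟨0, hu0⟩
  have hcobdd : IsCoboundedUnder (· ≥ ·) atTop u :=
    (isBoundedUnder_of ⟨1, hu1⟩ : IsBoundedUnder (· ≤ ·) atTop u).isCoboundedUnder_ge
  apply le_antisymm
  · apply le_of_forall_pos_le_add
    intro ε hε
    rw [zero_add]
    apply liminf_le_of_frequently_le _ hbddB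
    rw [frequently_atTop]
    intro M₀
    obtain ⟨J, hJ⟩ := exists_nat_gt (2 / ε)
    refine ⟨(s (max J M₀ + 1)) ^ 2, ?_, ?_⟩
    · have h1 : max J M₀ + 1 ≤ s (max J M₀ + 1) := hs4.id_le _
      have h2 : s (max J M₀ + 1) ≤ (s (max J M₀ + 1)) ^ 2 := by
        rw [sq]
        exact Nat.le_mul_of_pos_left _ (by have := hs2 (max J M₀ + 1); omega)
      have h3 : M₀ ≤ max J M₀ := le_max_right _ _
      omega
    · refine (hbound (max J M₀)).trans ?_
      have h1 : (J : ℝ) ≤ ((max J M₀ : ℕ) : ℝ) := by exact_mod_cast le_max_left J M₀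
      rw [div_le_iff₀ (by positivity)]
      rw [div_lt_iff₀ hε] at hJ
      nlinarith
  · exact le_liminf_of_le hcobdd (Eventually.of_forall hu0)

end Pool.Agent.Results.MP_c34da8_nt.TwoClasses
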